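import Pool.Agent.J4.H67.FE.Main

set_option autoImplicit false

/-!
# All continuous solutions of `f (x + f x) = f x + f (f x)`

The continuous solutions `f : ℝ → ℝ` are the linear functions `f x = a x` (`a` real) and the
functions `f x = a x` for `x ≥ 0`, `f x = b x` for `x < 0` with `a, b ≥ 0`.

Idea of the proof.  The equation says that `f` and `F = id + f` commute.  In the case in which `x` and
`F x` have opposite signs one has `|f x| = |x| + |F x|`; expanding `|f^N z|` with binomial
coefficients and letting `N → ∞`, the inequality of Cauchy gives `|F x| ^ 2 ≤ |x| |F (F x)|`, so
the ratio `r x = |F x| / |x|` satisfies `r x ≤ r (f x) ≤ r (F x)`.  Hence the supremum and the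
infimum of `r` are attained; preimages under `f` of the points where `r` is maximal (minimal) are
again such points, and comparing the order of their iterated preimages one finds that the two
values are equal.  The case of positive functions on the half-line is reduced to this one by
`x ↦ -sgn x (|x| + f |x|)`, and the case in which `f x` has the opposite and `F x` the same sign as
`x` by passing to the inverse function, which exists as the iterates of `F` tend to `0`.  The
possible zeros of `f` and of `F` are excluded by elementary arguments with orbits.
-/

namespace Pool.Agent.Results.MP_12983e_an.Classification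

/-- **Theorem.** A continuous function `f : ℝ → ℝ` satisfies `f (x + f x) = f x + f (f x)` for all
`x` if and only if there is a real `a` with `f x = a x` for all `x`, or there are `a, b ≥ 0` with
`f x = a x` for `x ≥ 0` and `f x = b x` for `x < 0`. -/
theorem result (f : ℝ → ℝ) (hf : Continuous f) :
    (∀ x, f (x + f x) = f x + f (f x)) ↔
      (∃ a : ℝ, ∀ x, f x = a * x) ∨
      ∃ a b : ℝ, 0 ≤ a ∧ 0 ≤ b ∧ ∀ x, f x = if 0 ≤ x then a * x else b * x :=
  Pool.Agent.J4.H67.FE.main f hf

end Pool.Agent.Results.MP_12983e_an.Classification
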